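import Pool.Agent.H17.DefectMain

set_option autoImplicit false

namespace Pool.Agent.Results.MP_ee5b76_ag.DefectUnbounded

open Pool.Agent.H17.Defect

universe u

/-- Over every algebraically closed field `k` and for every natural number `C` there are `n ≥ 1` and a finite
closed subscheme `Γ` of affine `n`-space (given by its ideal `I`) whose smoothability defect is larger than
`C * deg Γ`.  For `C = 1` this is a positive answer to Q1: `δ(Γ) > deg Γ`. -/
theorem result (k : Type u) [Field k] [IsAlgClosed k] (C : ℕ) :
    ∃ (n : ℕ) (I : Ideal (MvPolynomial (Fin n) k)),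
      1 ≤ n ∧ FiniteDimensional k (MvPolynomial (Fin n) k ⧸ I) ∧ C * deg I < defect I :=
  main k C

end Pool.Agent.Results.MP_ee5b76_ag.DefectUnbounded
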